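import Pool.Agent.MP_5f72fe_nt.H25.SpecD
import Pool.Agent.MP_5f72fe_nt.H18.CLS

/-! The part `1` modulo `3` of a form of the plus space lies in the span of the basic series. -/

namespace Pool.Agent.MP_5f72fe_nt.H71

open Complex Filter Topology
open scoped Real PowerSeries
open Pool.Agent.MP_5f72fe_nt.H3 Pool.Agent.MP_5f72fe_nt.H25 Pool.Agent.MP_5f72fe_nt.H18

theorem clsp_up {d : ℕ → ℂ} (h : Sm d) : Sm (up 9 d) := by
  intro r h0 h1
  have hi : Function.Injective fun m : ℕ => 9 * m := fun a b hab => by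
    simp only at hab
    omega
  rw [← hi.summable_iff]
  · refine (h (r ^ 9) (by positivity) (pow_lt_one₀ h0 h1 (by norm_num))).congr fun m => ?_
    simp [up, pow_mul]
  · intro n hn
    have : ¬ 9 ∣ n := fun ⟨m, hm⟩ => hn ⟨m, hm.symm⟩
    simp [up, this]

theorem clsp_chi (y : ℤ) : ‖(chi3 y : ℂ)‖ ≤ 1 := by
  have : chi3 y = 0 ∨ chi3 y = 1 ∨ chi3 y = -1 := by
    unfold chi3
    rw [Int.bmod_def]
    split_ifs <;> omega
  rcases this with h | h | h <;> simp [h]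

theorem clsp_flat {k : ℕ} {c : ℕ → ℂ} (hc : Sm c) : Sm (flatP k c) := by
  have h1 : Sm fun n : ℕ => (3 : ℂ) ^ (2 * k) * up 9 c n :=
    sm_le ‖(3 : ℂ) ^ (2 * k)‖ (clsp_up hc) fun n => by rw [norm_mul]
  have h2 : Sm fun n : ℕ => (3 : ℂ) ^ k * chi3 (n + 1) * c n :=
    sm_le ‖(3 : ℂ) ^ k‖ hc fun n => by
      rw [norm_mul, norm_mul]
      refine mul_le_mul_of_nonneg_right ?_ (norm_nonneg _)
      exact mul_le_of_le_one_right (norm_nonneg _) (clsp_chi _)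
  exact sm_le ‖I ^ k‖ (sm_add h1 h2) fun n => by
    unfold flatP
    rw [norm_mul]

theorem clsp_yb (S : RowSER) (B : RowBASE) (Z : RowZ) (k i : ℕ) (b : Bool) :
    Sm (cz (ybP k (i, b))) ∧ ∀ τ : ℂ, 0 < τ.im → sr (ybP k (i, b)) τ =
      if b then sr Aa τ ^ (k - 1 - 3 * i) * sr Kk τ ^ (3 * i + 1) * (sr (Z0 0) τ + sr (Z0 1) τ)
      else sr Aa τ ^ (k - 3 * i) * sr Kk τ ^ (3 * i) * (sr (Z1 0) τ + sr (Z1 1) τ) := by
  cases b
  · have hK := sr_pow S B.sm.2.2.1 (3 * i)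
    have h1 := sr_pow S B.sm.2.1 (k - 3 * i)
    have h2 := sr_mul S h1.1 hK.1
    have h3 := sr_add S (Z.sm 0 (by norm_num)).2 (Z.sm 1 (by norm_num)).2
    have h4 := sr_mul S h2.1 h3.1
    refine ⟨h4.1, fun τ hτ => ?_⟩
    have := h4.2 τ hτ
    rw [h3.2 τ hτ, h2.2 τ hτ, h1.2 τ hτ, hK.2 τ hτ] at this
    exact this
  · have hK := sr_pow S B.sm.2.2.1 (3 * i + 1)
    have h1 := sr_pow S B.sm.2.1 (k - 1 - 3 * i)
    have h2 := sr_mul S h1.1 hK.1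
    have h3 := sr_add S (Z.sm 0 (by norm_num)).1 (Z.sm 1 (by norm_num)).1
    have h4 := sr_mul S h2.1 h3.1
    refine ⟨h4.1, fun τ hτ => ?_⟩
    have := h4.2 τ hτ
    rw [h3.2 τ hτ, h2.2 τ hτ, h1.2 τ hτ, hK.2 τ hτ] at this
    exact this

theorem clsp_D (S : RowSER) (Z : RowZ) : Sm (cz D2) ∧ ∀ τ : ℂ, 0 < τ.im →
    sr D2 τ = sr (Z0 0) τ * sr (Z1 1) τ - sr (Z0 1) τ * sr (Z1 0) τ := by
  have h1 := sr_mul S (Z.sm 0 (by norm_num)).1 (Z.sm 1 (by norm_num)).2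
  have h2 := sr_mul S (Z.sm 1 (by norm_num)).1 (Z.sm 0 (by norm_num)).2
  have h3 := sr_sub S h1.1 h2.1
  refine ⟨h3.1, fun τ hτ => ?_⟩
  have := h3.2 τ hτ
  rw [h1.2 τ hτ, h2.2 τ hτ] at this
  exact this

/-- A quotient of a determinant by a nonvanishing function. -/
theorem clsp_quot (S : RowSER) (JH : RowJH) {a b c d D : ℂ → ℂ} {ρa ρb ρc ρd ρD : ℝ}
    {lD : ℂ} (x : ℂ) (ha : Ex ρa a) (hb : Ex ρb b) (hc : Ex ρc c) (hd : Ex ρd d)
    (hD : Ex ρD D ∧ Ld ρD D lD) (hlD : lD ≠ 0) (nD : ∀ τ : ℂ, 0 < τ.im → D τ ≠ 0)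
    (e1 : ρc + ρd = ρa + ρb) (e2 : ρa + ρb - ρD = 0) :
    Hol1 fun τ => (x * (a τ * b τ) + -x * (c τ * d τ)) / D τ := by
  have h1 := S.exMul _ _ _ _ ha hb
  have h2 := S.exMul _ _ _ _ hc hd
  rw [e1] at h2
  have h3 := S.exAdd _ _ _ x (-x) h1 h2
  have h4 := S.exDiv _ _ _ _ _ h3 hD.1 hD.2 hlD nD
  rw [e2] at h4
  exact hol_of_ex JH h4

theorem clsp_sub (S : RowSER) {F : ℂ → ℂ} {σ : ℝ} (ρ : ℝ) (n : ℕ) (e : σ = ρ + n) (h : Ex σ F) :
    Ex ρ F := S.exSub ρ F n (e ▸ h)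

theorem clsp_alg1 {s t J D g0 g1 a0 a1 b0 b1 τ : ℂ} {m : ℕ} (hs : s ^ 2 = 2) (ht : t ^ 2 = 3)
    (hJ : J ≠ 0) (hD : D ≠ 0) (e : τ ^ (m + 1) * (-I) ^ (m + 1) = J ^ (2 * (m + 1))) :
    (1 * (1 * J ^ (2 * (m + 1) + 1) * ((g0 + (-1) ^ 1 * g1) / s) *
        (t * J / t * ((a0 + 2 * b0 + (-1) ^ 0 * (a1 + 2 * b1)) / s))) +
      -1 * (1 * J ^ (2 * (m + 1) + 1) * ((g0 + (-1) ^ 0 * g1) / s) *
        (t * J / t * ((a0 + 2 * b0 + (-1) ^ 1 * (a1 + 2 * b1)) / s)))) / ((t * J) ^ 2 * D) =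
    τ ^ (m + 1) * (((-I) ^ (m + 1) * (1 / 3) * (g0 * (1 * a1 + 2 * b1)) +
      -((-I) ^ (m + 1) * (1 / 3)) * (g1 * (1 * a0 + 2 * b0))) / D) := by
  have ht0 : t ≠ 0 := fun h => by
    rw [h] at ht
    norm_num at ht
  rw [mul_div_cancel_left₀ J ht0]
  have a : (1 * (1 * J ^ (2 * (m + 1) + 1) * ((g0 + (-1) ^ 1 * g1) / s) *
        (J * ((a0 + 2 * b0 + (-1) ^ 0 * (a1 + 2 * b1)) / s))) +
      -1 * (1 * J ^ (2 * (m + 1) + 1) * ((g0 + (-1) ^ 0 * g1) / s) *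
        (J * ((a0 + 2 * b0 + (-1) ^ 1 * (a1 + 2 * b1)) / s)))) =
      2 * J ^ (2 * (m + 1) + 1) * J * (g0 * (a1 + 2 * b1) - g1 * (a0 + 2 * b0)) / s ^ 2 := by ring
  have b : τ ^ (m + 1) * (((-I) ^ (m + 1) * (1 / 3) * (g0 * (1 * a1 + 2 * b1)) +
      -((-I) ^ (m + 1) * (1 / 3)) * (g1 * (1 * a0 + 2 * b0))) / D) =
      τ ^ (m + 1) * (-I) ^ (m + 1) * (1 / 3 * (g0 * (a1 + 2 * b1) - g1 * (a0 + 2 * b0)) / D) := by
    ring
  rw [a, b, e, hs, mul_pow t J, ht]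
  field_simp
  ring

theorem clsp_alg2 {s t J D A K g0 g1 a0 a1 b0 b1 τ : ℂ} {m : ℕ} (hs : s ^ 2 = 2) (ht : t ^ 2 = 3)
    (hJ : J ≠ 0) (hD : D ≠ 0) (hb : A - 3 * K ≠ 0) (e : τ ^ m * (-I) ^ m = J ^ (2 * m)) :
    (1 * (t * J / t * ((a0 - b0 + (-1) ^ 1 * (a1 - b1)) / s) *
        (1 * J ^ (2 * (m + 1) + 1) * ((g0 + (-1) ^ 0 * g1) / s))) +
      -1 * (t * J / t * ((a0 - b0 + (-1) ^ 0 * (a1 - b1)) / s) *
        (1 * J ^ (2 * (m + 1) + 1) * ((g0 + (-1) ^ 1 * g1) / s)))) / ((t * J) ^ 2 * D) /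
      (3 * J ^ 2 * (A - 3 * K) / (3 * t)) =
    τ ^ m * (((-I) ^ m * (t / 3) * ((1 * a0 + -1 * b0) * g1) +
      -((-I) ^ m * (t / 3)) * ((1 * a1 + -1 * b1) * g0)) / D / (1 * A + -3 * K)) := by
  have ht0 : t ≠ 0 := fun h => by
    rw [h] at ht
    norm_num at ht
  rw [mul_div_cancel_left₀ J ht0]
  have a : (1 * (J * ((a0 - b0 + (-1) ^ 1 * (a1 - b1)) / s) *
        (1 * J ^ (2 * (m + 1) + 1) * ((g0 + (-1) ^ 0 * g1) / s))) +
      -1 * (J * ((a0 - b0 + (-1) ^ 0 * (a1 - b1)) / s) *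
        (1 * J ^ (2 * (m + 1) + 1) * ((g0 + (-1) ^ 1 * g1) / s)))) =
      2 * J ^ (2 * (m + 1) + 1) * J * ((a0 - b0) * g1 - (a1 - b1) * g0) / s ^ 2 := by ring
  have b : τ ^ m * (((-I) ^ m * (t / 3) * ((1 * a0 + -1 * b0) * g1) +
      -((-I) ^ m * (t / 3)) * ((1 * a1 + -1 * b1) * g0)) / D / (1 * A + -3 * K)) =
      τ ^ m * (-I) ^ m * (t / 3 * ((a0 - b0) * g1 - (a1 - b1) * g0) / D / (A - 3 * K)) := by
    rw [show 1 * A + -3 * K = A - 3 * K by ring]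
    ring
  rw [a, b, e, hs, mul_pow t J, ht]
  generalize A - 3 * K = b at hb
  field_simp
  ring

theorem rowCLSP : OfCLSP := by
  intro S JH IN B NZ MF Z F9 k c hk hk2 hV
  obtain ⟨hc, sc, hSL⟩ := id hV
  have hF := F9 k c hk2 hV
  have z2 : (0 : ℕ) < 2 := by norm_num
  have o2 : (1 : ℕ) < 2 := by norm_num
  have h0 : Ex (4 / 12) (ser 12 (par 0 (cls1 c))) := by
    have := (S.ex 12 4 _ (by norm_num) (sm_par 0 (sm_cls hc)) fun n hn => by
      unfold par cls1 at hn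
      split_ifs at hn with a b
      · have := sc n hn
        exact ⟨(n - 4) / 12, by omega⟩
      all_goals exact absurd rfl hn).1
    exact_mod_cast this
  have h1 : Ex (1 / 12) (ser 12 (par 1 (cls1 c))) := by
    have := (S.ex 12 1 _ (by norm_num) (sm_par 1 (sm_cls hc)) fun n hn => by
      unfold par cls1 at hn
      split_ifs at hn with a b
      · have := sc n hn
        exact ⟨(n - 1) / 12, by omega⟩
      all_goals exact absurd rfl hn).1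
    exact_mod_cast this
  have sf : ∀ n, flatP k c n ≠ 0 → n % 4 = 0 ∨ n % 4 = 1 := by
    intro n hn
    by_contra hcon
    have a : c n = 0 := by
      by_contra a
      have := sc n a
      omega
    have b : up 9 c n = 0 := by
      unfold up
      split_ifs with h3
      · by_contra b
        have := sc _ b
        omega
      · rfl
    exact hn (by simp [flatP, a, b])
  have g0 : Ex 0 (ser 4 (par 0 (flatP k c))) := by
    have := (S.ex 4 0 _ (by norm_num) (sm_par 0 (clsp_flat (k := k) hc)) fun n hn => by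
      unfold par at hn
      split_ifs at hn with a
      · have := sf n hn
        exact ⟨n / 4, by omega⟩
      · exact absurd rfl hn).1
    simpa using this
  have g1 : Ex (1 / 4) (ser 4 (par 1 (flatP k c))) := by
    have := (S.ex 4 1 _ (by norm_num) (sm_par 1 (clsp_flat (k := k) hc)) fun n hn => by
      unfold par at hn
      split_ifs at hn with a
      · have := sf n hn
        exact ⟨(n - 1) / 4, by omega⟩
      · exact absurd rfl hn).1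
    exact_mod_cast this
  have ea0 := ex_sup S 0 (by norm_num) (Z.sm 0 z2).1 Z.sup0.1
  have ea1 := ex_sup S (9 / 12) (by norm_num) (Z.sm 1 o2).1 Z.sup0.2.1
  have eb0 := ex_sup S (4 / 12) (by norm_num) (Z.sm 0 z2).2 Z.sup1.1
  have eb1 := ex_sup S (1 / 12) (by norm_num) (Z.sm 1 o2).2 Z.sup1.2.1
  have eD := ex_sup S (1 / 12) (by norm_num) (clsp_D S Z).1 Z.supD.1
  have eK := ex_sup S (4 / 12) (by norm_num) B.sm.2.2.1 IN.supK.1
  have lD : cz D2 1 ≠ 0 := by simp only [cz, Z.supD.2]; norm_num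
  have lK : cz Kk 4 ≠ 0 := by simp [cz, IN.supK.2]
  have im3 : ∀ τ : ℂ, 0 < τ.im → 0 < (3 * τ).im := fun τ hτ => by simpa using hτ
  have nb : ∀ τ : ℂ, 0 < τ.im → 1 * sr Aa (3 * τ) + -3 * sr Kk (3 * τ) ≠ 0 := fun τ hτ h =>
    (NZ.neK _ (im3 τ hτ)).2 (by linear_combination h)
  have ta0 := (ex_three S 0 (by norm_num) ea0).1
  have ta1 := clsp_sub S (1 / 4) 2 (by norm_num) (ex_three S (9 / 4) (by norm_num) ea1).1
  have tb0 := clsp_sub S 0 1 (by norm_num) (ex_three S 1 (by norm_num) eb0).1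
  have tb1 := (ex_three S (1 / 4) (by norm_num) eb1).1
  have HF := clsp_quot S JH 1 h1 ea0.1 h0 (clsp_sub S (-3 / 12) 1 (by norm_num) ea1.1) eD lD Z.neD
    (by norm_num) (by norm_num)
  have HF' := hol_quot S JH 1 eb1.1 h0 eb0.1 h1 eD eK lD lK Z.neD
    (fun τ hτ => (NZ.neK τ hτ).1) (by norm_num) (by norm_num)
  have HG := clsp_quot S JH ((-I) ^ k * (1 / 3)) g0 (S.exAdd _ _ _ 1 2 ta1 tb1)
    g1 (S.exAdd _ _ _ 1 2 ta0 tb0) (ex_three S (1 / 4) (by norm_num) eD)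
    lD (fun τ hτ => Z.neD _ (im3 τ hτ)) (by norm_num) (by norm_num)
  have HG' := hol_quot S JH ((-I) ^ (k - 1) * (((√3 : ℝ) : ℂ) / 3))
    (S.exAdd _ _ _ 1 (-1) ta0 tb0) g1 (S.exAdd _ _ _ 1 (-1) ta1 tb1) g0
    (ex_three S (1 / 4) (by norm_num) eD) (ld_b S JH IN B)
    lD one_ne_zero (fun τ hτ => Z.neD _ (im3 τ hτ)) nb (by norm_num) (by norm_num)
  obtain ⟨m, rfl⟩ : ∃ m, k = m + 1 := ⟨k - 1, by omega⟩
  have r2 : ((√2 : ℝ) : ℂ) ^ 2 = 2 := by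
    rw [← ofReal_pow, Real.sq_sqrt (by norm_num)]
    norm_num
  have r3 : ((√3 : ℝ) : ℂ) ^ 2 = 3 := by
    rw [← ofReal_pow, Real.sq_sqrt (by norm_num)]
    norm_num
  have j3 : ∀ τ : ℂ, Jh (3 * τ) = (√3 : ℝ) * Jh τ := fun τ => by
    have := JH.scale 3 τ (by norm_num)
    exact_mod_cast this
  have e1 : ∀ τ : ℂ, -I * (3 * τ) = 3 * Jh τ ^ 2 := fun τ => by
    rw [JH.sq]
    ring
  have e2 : ∀ (τ : ℂ) (n : ℕ), τ ^ n * (-I) ^ n = Jh τ ^ (2 * n) := fun τ n => by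
    rw [pow_mul, JH.sq, mul_pow, mul_comm]
  obtain ⟨x, hx⟩ := MF ((m + 1 : ℕ) : ℤ) _ _ HF HG fun τ hτ => by
    have a0 := hF τ hτ 0 z2
    have a1 := hF τ hτ 1 o2
    push_cast at a0 a1
    simp only [a0, a1, Z.law0 _ (im3 τ hτ) 0 z2, Z.law0 _ (im3 τ hτ) 1 o2,
      Z.lawD _ (im3 τ hτ), j3, zpow_natCast]
    exact clsp_alg1 r2 r3 (JH.jne τ hτ) (Z.neD _ (im3 τ hτ)) (e2 τ _)
  obtain ⟨y, hy⟩ := MF ((m : ℕ) : ℤ) _ _ HF' HG' fun τ hτ => by
    have a0 := hF τ hτ 0 z2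
    have a1 := hF τ hτ 1 o2
    push_cast at a0 a1
    simp only [a0, a1, Z.law1 _ (im3 τ hτ) 0 z2, Z.law1 _ (im3 τ hτ) 1 o2,
      Z.lawD _ (im3 τ hτ), B.lawK _ (im3 τ hτ), j3, zpow_natCast, Nat.add_sub_cancel, e1]
    exact clsp_alg2 r2 r3 (JH.jne τ hτ) (Z.neD _ (im3 τ hτ)) (NZ.neK _ (im3 τ hτ)).2 (e2 τ _)
  let X : ℕ × Bool → ℂ := fun p =>
    if p.2 then (if 3 * p.1 ≤ m then y p.1 else 0) else (if 3 * p.1 ≤ m + 1 then x p.1 else 0)
  refine ⟨fun p => X (p.1, p.2), sub_eq_zero.1 (S.uniq 12 _ 0 (by norm_num) fun τ hτ => ?_)⟩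
  have s0 := hasSum_ser S (M := 12) (by norm_num) (sm_par 0 (sm_cls hc)) hτ
  have s1 := hasSum_ser S (M := 12) (by norm_num) (sm_par 1 (sm_cls hc)) hτ
  have s2 := hasSum_sum (s := (Finset.univ : Finset (Fin (m + 1 + 1) × Bool))) fun p _ =>
    (hasSum_ser S (M := 12) (by norm_num) (clsp_yb S B Z (m + 1) p.1 p.2).1 hτ).mul_left
      (X (p.1, p.2))
  have s3 := (s0.add s1).sub s2
  have key : ser 12 (par 0 (cls1 c)) τ + ser 12 (par 1 (cls1 c)) τ -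
      ∑ p : Fin (m + 1 + 1) × Bool, X (p.1, p.2) * ser 12 (cz (ybP (m + 1) (p.1, p.2))) τ = 0 := by
    have hx' := hx τ hτ
    have hy' := hy τ hτ
    simp only [Int.toNat_natCast, Finset.sum_filter] at hx' hy'
    have f1 : ∑ p : Fin (m + 1 + 1) × Bool,
        X (p.1, p.2) * ser 12 (cz (ybP (m + 1) (p.1, p.2))) τ =
        ∑ i ∈ Finset.range (m + 1 + 1), (X (i, true) * sr (ybP (m + 1) (i, true)) τ +
          X (i, false) * sr (ybP (m + 1) (i, false)) τ) := by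
      rw [Fintype.sum_prod_type, ← Fin.sum_univ_eq_sum_range (fun i => X (i, true) *
        sr (ybP (m + 1) (i, true)) τ + X (i, false) * sr (ybP (m + 1) (i, false)) τ)]
      exact Finset.sum_congr rfl fun i _ => Fintype.sum_bool _
    have f2 : ∀ i : ℕ, X (i, true) * sr (ybP (m + 1) (i, true)) τ +
        X (i, false) * sr (ybP (m + 1) (i, false)) τ =
        (if 3 * (i : ℤ) ≤ (m + 1 : ℕ) then
          x i * (sr Aa τ ^ (m + 1 - 3 * i) * sr Kk τ ^ (3 * i)) else 0) *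
            (sr (Z1 0) τ + sr (Z1 1) τ) +
        (if 3 * (i : ℤ) ≤ (m : ℕ) then
          y i * (sr Aa τ ^ (m - 3 * i) * sr Kk τ ^ (3 * i)) else 0) *
            (sr Kk τ * (sr (Z0 0) τ + sr (Z0 1) τ)) := by
      intro i
      rw [(clsp_yb S B Z _ _ _).2 τ hτ, (clsp_yb S B Z _ _ _).2 τ hτ]
      simp only [X, if_true, Bool.false_eq_true, if_false, Nat.add_sub_cancel]
      by_cases u : 3 * i ≤ m
      · rw [if_pos u, if_pos (by omega), if_pos (by omega), if_pos (by omega)]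
        ring
      · rw [if_neg u, if_neg (show ¬ 3 * (i : ℤ) ≤ (m : ℕ) by omega)]
        by_cases v : 3 * i ≤ m + 1
        · rw [if_pos v, if_pos (by omega)]
          ring
        · rw [if_neg v, if_neg (by omega)]
          ring
    have f3 : ∑ i ∈ Finset.range (m + 1 + 1), (if 3 * (i : ℤ) ≤ (m : ℕ) then
        y i * (sr Aa τ ^ (m - 3 * i) * sr Kk τ ^ (3 * i)) else 0) =
        ∑ i ∈ Finset.range (m + 1), (if 3 * (i : ℤ) ≤ (m : ℕ) then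
          y i * (sr Aa τ ^ (m - 3 * i) * sr Kk τ ^ (3 * i)) else 0) := by
      rw [Finset.sum_range_succ _ (m + 1), if_neg (by omega), add_zero]
    rw [f1, Finset.sum_congr rfl fun i _ => f2 i, Finset.sum_add_distrib, ← Finset.sum_mul,
      ← Finset.sum_mul, f3, ← hx', ← hy']
    have hD := Z.neD τ hτ
    have hK := (NZ.neK τ hτ).1
    have hdet := (clsp_D S Z).2 τ hτ
    field_simp
    linear_combination (ser 12 (par 0 (cls1 c)) τ + ser 12 (par 1 (cls1 c)) τ) * hdet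
  rw [key] at s3
  refine s3.congr_fun fun n => ?_
  have hp : cls1 c n = par 0 (cls1 c) n + par 1 (cls1 c) n := by
    unfold par
    rcases Nat.mod_two_eq_zero_or_one n with h | h <;> simp [h]
  simp only [Pi.sub_apply, Finset.sum_apply, Pi.smul_apply, smul_eq_mul, sub_mul, Finset.sum_mul,
    mul_assoc]
  rw [hp, add_mul]

end Pool.Agent.MP_5f72fe_nt.H71
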